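import Mathlib

set_option autoImplicit false

/-!
# Lattices embeddable into subspace lattices over division rings

A subspace of a vector space `V` over a division ring `D` is a subspace of `V` over the centre `F` of
`D`, and intersections and sums of subspaces do not depend on the scalars.  So the lattice of the
`D`-subspaces of `V` is a sublattice of the lattice of the `F`-subspaces of `V`.
-/

namespace Pool.Agent.Results.MP_332034_al.RestrictScalars

universe u v w

/-- Every lattice which embeds into the subspace lattice of a vector space over a division ring
embeds into the subspace lattice of a vector space over a field. -/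
theorem result (D : Type u) [DivisionRing D] (V : Type v) [AddCommGroup V] [Module D V]
    (L : Type w) [Lattice L]
    (h : ∃ φ : L → Submodule D V, Function.Injective φ ∧
      (∀ a b : L, φ (a ⊓ b) = φ a ⊓ φ b) ∧ ∀ a b : L, φ (a ⊔ b) = φ a ⊔ φ b) :
    ∃ (F : Type u) (_ : Field F) (W : Type v) (_ : AddCommGroup W) (_ : Module F W)
      (ψ : L → Submodule F W), Function.Injective ψ ∧
      (∀ a b : L, ψ (a ⊓ b) = ψ a ⊓ ψ b) ∧ ∀ a b : L, ψ (a ⊔ b) = ψ a ⊔ ψ b := by
  obtain ⟨φ, hφ, hinf, hsup⟩ := h
  refine ⟨Subring.center D, inferInstance, V, inferInstance, inferInstance,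
    fun a => (φ a).restrictScalars (Subring.center D), ?_, ?_, ?_⟩
  · intro a b hab
    exact hφ (Submodule.restrictScalars_injective _ _ _ hab)
  · intro a b
    simp only [hinf]
    rfl
  · intro a b
    simp only [hsup]
    ext x
    simp only [Submodule.restrictScalars_mem, Submodule.mem_sup]

end Pool.Agent.Results.MP_332034_al.RestrictScalars
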